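import Mathlib

/-!
A conductor-type element for unramified algebras with compatible endomorphisms.
-/

namespace Pool.Agent.MP_b525bf_ag

open TensorProduct

theorem exists_conductor {A B : Type} [CommRing A] [CommRing B] [Algebra A B]
    [Algebra.FormallyUnramified A B] [Algebra.FiniteType A B] (σA : A →+* A) (σ : B →+* B)
    (h : ∀ a, σ (algebraMap A B a) = algebraMap A B (σA a)) :
    ∃ c : B, 1 - c ∈ Ideal.span (Set.range fun b => σ b - b) ∧
      ∀ b, c * (σ b - b) ∈ Ideal.span (Set.range fun a : A => algebraMap A B (σA a - a)) := by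
  classical
  set I0 : Ideal B := Ideal.span (Set.range fun a : A => algebraMap A B (σA a - a)) with hI0
  set J : Ideal B := Ideal.span (Set.range fun b => σ b - b) with hJ
  have hIJ : I0 ≤ J := by
    rw [hI0, Ideal.span_le]
    rintro _ ⟨a, rfl⟩
    refine Ideal.subset_span ⟨algebraMap A B a, ?_⟩
    simp only
    rw [h, map_sub]
  have hσI : I0 ≤ I0.comap σ := by
    rw [hI0, Ideal.span_le]
    rintro _ ⟨a, rfl⟩
    refine Ideal.subset_span ⟨σA a, ?_⟩
    simp only
    rw [h, map_sub, map_sub, map_sub]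
  let σC : (B ⧸ I0) →ₐ[A] (B ⧸ I0) :=
    { Ideal.quotientMap I0 σ hσI with
      commutes' := fun a => by
        change Ideal.quotientMap I0 σ hσI (Ideal.Quotient.mk I0 (algebraMap A B a)) =
          Ideal.Quotient.mk I0 (algebraMap A B a)
        rw [Ideal.quotientMap_mk, h, ← sub_eq_zero, ← map_sub, Ideal.Quotient.eq_zero_iff_mem,
          ← map_sub]
        exact Ideal.subset_span ⟨a, rfl⟩ }
  have hσC : ∀ b, σC (Ideal.Quotient.mk I0 b) = Ideal.Quotient.mk I0 (σ b) := by
    intro b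
    change Ideal.quotientMap I0 σ hσI (Ideal.Quotient.mk I0 b) = _
    rw [Ideal.quotientMap_mk]
  have hun : Algebra.FormallyUnramified A (B ⧸ I0) :=
    Algebra.FormallyUnramified.of_surjective (Ideal.Quotient.mkₐ A I0)
      (Ideal.Quotient.mkₐ_surjective A I0)
  have hft : Algebra.FiniteType A (B ⧸ I0) :=
    Algebra.FiniteType.of_surjective (Ideal.Quotient.mkₐ A I0)
      (Ideal.Quotient.mkₐ_surjective A I0)
  obtain ⟨t, ht, ht1⟩ := (Algebra.FormallyUnramified.iff_exists_tensorProduct (R := A) (S := B ⧸ I0)).1 hun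
  let φ : (B ⧸ I0) ⊗[A] (B ⧸ I0) →ₐ[A] (B ⧸ I0) :=
    (Algebra.TensorProduct.lmul' A).comp (Algebra.TensorProduct.map (AlgHom.id A _) σC)
  have hφ : ∀ x y, φ (x ⊗ₜ[A] y) = x * σC y := fun x y => by simp [φ]
  obtain ⟨c, hc⟩ := Ideal.Quotient.mk_surjective (φ t)
  let π : (B ⧸ I0) →+* (B ⧸ J) := Ideal.Quotient.factor hIJ
  have hπσ : ∀ x, π (σC x) = π x := by
    intro x
    obtain ⟨b, rfl⟩ := Ideal.Quotient.mk_surjective x
    rw [hσC]
    simp only [π, Ideal.Quotient.factor_mk]
    rw [← sub_eq_zero, ← map_sub, Ideal.Quotient.eq_zero_iff_mem]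
    exact Ideal.subset_span ⟨b, rfl⟩
  have hπφ : ∀ s : (B ⧸ I0) ⊗[A] (B ⧸ I0), π (φ s) = π (Algebra.TensorProduct.lmul' A s) := by
    intro s
    induction s using TensorProduct.induction_on with
    | zero => simp
    | tmul x y => rw [hφ, map_mul, hπσ, Algebra.TensorProduct.lmul'_apply_tmul, map_mul]
    | add x y hx hy => rw [map_add, map_add, hx, hy, map_add, map_add]
  refine ⟨c, ?_, fun b => ?_⟩
  · rw [← Ideal.Quotient.eq_zero_iff_mem, map_sub, map_one, sub_eq_zero]
    have h1 := hπφ t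
    rw [ht1, map_one, ← hc] at h1
    simp only [π, Ideal.Quotient.factor_mk] at h1
    exact h1.symm
  · rw [← Ideal.Quotient.eq_zero_iff_mem, map_mul, hc, map_sub, ← hσC]
    have h1 := congrArg φ (ht (Ideal.Quotient.mk I0 b))
    rw [map_mul, map_sub, hφ, hφ, map_zero, map_one, one_mul, mul_one] at h1
    rw [mul_comm]
    exact h1

end Pool.Agent.MP_b525bf_ag
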