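import Pool.Agent.Lib.MP_b525bf_ag.Fam

/-!
Laurent polynomials over a formally smooth algebra are formally smooth.
-/

namespace Pool.Agent.MP_b525bf_ag

open Polynomial LaurentPolynomial

theorem formallySmooth_laurent (k B : Type) [CommRing k] [CommRing B] [Algebra k B]
    (h : Algebra.FormallySmooth k B) : Algebra.FormallySmooth k (AddMonoidAlgebra B ℤ) := by
  have h1 : Algebra.FormallySmooth B B[X] := inferInstance
  have h2 : Algebra.FormallySmooth k B[X] := Algebra.FormallySmooth.comp k B B[X]
  have h3 : Algebra.FormallySmooth B[X] B[T;T⁻¹] :=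
    Algebra.FormallySmooth.of_isLocalization (Submonoid.powers (X : B[X]))
  have h4 : IsScalarTower k B[X] B[T;T⁻¹] := by
    refine IsScalarTower.of_algebraMap_eq fun c => ?_
    rw [LaurentPolynomial.algebraMap_eq_toLaurent, Polynomial.algebraMap_apply,
      Polynomial.toLaurent_C]
    rfl
  exact Algebra.FormallySmooth.comp k B[X] B[T;T⁻¹]

/-- A graded algebra all of whose pieces are the same formally smooth algebra is formally smooth. -/
theorem formallySmooth_of_const {k K : Type} [Field k] [Field K] [Algebra k K]
    (B : Subalgebra k K) (M : Fam k K ℤ) (hM : ∀ a, M.s a = Subalgebra.toSubmodule B)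
    (h : Algebra.FormallySmooth k B) : Algebra.FormallySmooth k M.alg := by
  have h1 := formallySmooth_laurent k B h
  let g : AddMonoidAlgebra B ℤ →ₐ[k] M.alg :=
    (AddMonoidAlgebra.mapAlgHom ℤ B.val).codRestrict M.alg fun F => by
      rw [Fam.mem_alg]
      intro a
      rw [AddMonoidAlgebra.coeff_mapAlgHom, hM]
      exact (F.coeff a).2
  have hg : ∀ (F : AddMonoidAlgebra B ℤ) (a : ℤ),
      ((g F : M.alg) : AddMonoidAlgebra K ℤ).coeff a = (F.coeff a : K) := by
    intro F a
    change (AddMonoidAlgebra.mapAlgHom ℤ B.val F).coeff a = _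
    rw [AddMonoidAlgebra.coeff_mapAlgHom]
    rfl
  have hbij : Function.Bijective g := by
    constructor
    · intro F G hFG
      refine AddMonoidAlgebra.ext (Finsupp.ext fun a => Subtype.ext ?_)
      rw [← hg, ← hg, hFG]
    · rintro ⟨F, hF⟩
      have hF' : ∀ a, F.coeff a ∈ B := fun a => by
        have := hF a
        rwa [hM] at this
      refine ⟨AddMonoidAlgebra.ofCoeff (Finsupp.onFinset F.coeff.support
        (fun a => (⟨F.coeff a, hF' a⟩ : B)) fun a ha => ?_), Subtype.ext ?_⟩
      · rw [Finsupp.mem_support_iff]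
        intro h0
        exact ha (Subtype.ext h0)
      · refine AddMonoidAlgebra.ext (Finsupp.ext fun a => ?_)
        rw [hg]
        rfl
  exact Algebra.FormallySmooth.of_equiv (AlgEquiv.ofBijective g hbij)

end Pool.Agent.MP_b525bf_ag
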