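import Pool.Agent.Lib.MP_b525bf_ag.FamLoc
import Pool.Agent.Lib.MP_b525bf_ag.Descent

/-!
Restriction of the grading to a subgroup of finite index generated by the degree of a power of a
homogeneous unit.
-/

namespace Pool.Agent.MP_b525bf_ag

open AddMonoidAlgebra Polynomial

namespace Fam

variable {k K ι ι' : Type} [Field k] [Field K] [Algebra k K] [AddCommGroup ι] [AddCommGroup ι']

lemma projComap_el_zero (f : ι' →+ ι) (hf : Function.Injective f) (N : Fam k K ι) {a : ι} {x : K}
    (hx : x ∈ N.s a) (ha : ¬ ∃ b, f b = a) : projComap f hf N (N.el hx) = 0 := by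
  refine Subtype.ext ?_
  ext b
  change (comapDomain f hf (single a x)).coeff b = (0 : AddMonoidAlgebra K ι').coeff b
  classical
  rw [coeff_comapDomain, Finsupp.comapDomain_apply, AddMonoidAlgebra.coeff_single,
    Finsupp.single_apply, if_neg]
  · rfl
  · rintro rfl
    exact ha ⟨b, rfl⟩

theorem formallySmooth_comap_of_root (f : ι' →+ ι) (hf : Function.Injective f) (N : Fam k K ι)
    (m : ℕ) (hm : 0 < m) {l : ι} {z : K} (hz : z ∈ N.s l) (hz' : z⁻¹ ∈ N.s (-l)) (hz0 : z ≠ 0)
    (b0 : ι') (hb0 : f b0 = m • l) (hdec : ∀ a : ι, ∃ j : ℕ, j < m ∧ ∃ b : ι', a = j • l + f b)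
    (hdec' : ∀ j : ℕ, 0 < j → j < m → ¬ ∃ b, f b = j • l)
    (h : Algebra.FormallySmooth k N.alg) : Algebra.FormallySmooth k (N.comap f).alg := by
  classical
  have hzm : z ^ m ∈ (N.comap f).s b0 := by
    rw [comap_s, hb0]; exact N.pow' hz m
  set w : (N.comap f).alg := (N.comap f).el hzm with hw
  have hofw : ofComap f N w = N.el hz ^ m := by
    have h1 : ofComap f N ((N.comap f).el (a := b0) hzm) = N.el (a := f b0) hzm :=
      ofComap_el f N (a := b0) hzm
    rw [hw, h1, el_pow _ hz]
    exact el_eq _ _ _ hb0 rfl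
  set F : (N.comap f).alg[X] := X ^ m - C w with hF
  have hFm : F.Monic := monic_X_pow_sub_C w hm.ne'
  have hFd : F.natDegree = m := natDegree_X_pow_sub_C
  have hev : F.eval₂ (ofComap f N : (N.comap f).alg →+* N.alg) (N.el hz) = 0 := by
    rw [hF, eval₂_sub, eval₂_X_pow, eval₂_C, sub_eq_zero]
    exact hofw.symm
  let Φ : AdjoinRoot F →ₐ[k] N.alg := AdjoinRoot.liftAlgHom F (ofComap f N) (N.el hz) hev
  have hΦof : ∀ r, Φ (AdjoinRoot.of F r) = ofComap f N r := fun r =>
    AdjoinRoot.liftAlgHom_of (p := F) (ofComap f N) (N.el hz) hev r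
  have hΦroot : Φ (AdjoinRoot.root F) = N.el hz :=
    AdjoinRoot.liftAlgHom_root (p := F) (ofComap f N) (N.el hz) hev
  have hpow : ∀ j : ℤ, z ^ j ∈ N.s (j • l) := fun j => zpow_mem _ hz hz' j
  have hinj : Function.Injective Φ := by
    rw [injective_iff_map_eq_zero]
    intro y hy
    obtain ⟨P, rfl⟩ := AdjoinRoot.mk_surjective y
    set R : (N.comap f).alg[X] := P %ₘ F with hR
    have hmk : AdjoinRoot.mk F P = AdjoinRoot.mk F R := by
      rw [AdjoinRoot.mk_eq_mk, hR]
      exact ⟨P /ₘ F, by rw [sub_eq_iff_eq_add, add_comm]; exact (modByMonic_add_div P F).symm⟩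
    have hRd : R.natDegree < m := by
      have := natDegree_modByMonic_lt P hFm (by
        intro h1
        rw [h1, natDegree_one] at hFd
        omega)
      rwa [hFd] at this
    rw [hmk] at hy ⊢
    have hsum : ∑ j ∈ Finset.range m, ofComap f N (R.coeff j) * N.el hz ^ j = 0 := by
      have h1 : Φ (AdjoinRoot.mk F R) = R.eval₂ (ofComap f N : (N.comap f).alg →+* N.alg) (N.el hz) :=
        AdjoinRoot.liftAlgHom_mk (p := F) (ofComap f N) (N.el hz) hev R
      rw [h1, eval₂_eq_sum_range' _ hRd] at hy
      exact hy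
    have hR0 : R = 0 := by
      ext1 i
      rw [Polynomial.coeff_zero]
      rcases lt_or_ge i m with hi | hi
      · have h2 := congrArg (fun G => projComap f hf N (G * N.el (hpow (-(i : ℤ))))) hsum
        rw [Finset.sum_mul, map_sum, zero_mul, map_zero] at h2
        rw [Finset.sum_eq_single i] at h2
        · rw [mul_assoc, el_pow _ hz, el_mul, projComap_mul] at h2
          have h3 : N.el (N.mul' (N.pow' hz i) (hpow (-(i : ℤ)))) = 1 := by
            rw [← el_one]
            refine el_eq _ _ _ (by rw [neg_smul, natCast_zsmul, add_neg_cancel]) ?_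
            rw [zpow_neg, zpow_natCast, mul_inv_cancel₀ (pow_ne_zero _ hz0)]
          rw [h3, projComap_one, mul_one] at h2
          exact h2
        · intro j hj hji
          rw [mul_assoc, el_pow _ hz, el_mul, projComap_mul, projComap_el_zero, mul_zero]
          rintro ⟨b, hb⟩
          have hj' := Finset.mem_range.1 hj
          rcases lt_or_gt_of_ne hji with hlt | hgt
          · refine hdec' (i - j) (by omega) (by omega) ⟨-b, ?_⟩
            rw [map_neg, hb, neg_smul, natCast_zsmul]
            have : i • l = (i - j) • l + j • l := by rw [← add_nsmul]; congr 1; omega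
            rw [this]; abel
          · refine hdec' (j - i) (by omega) (by omega) ⟨b, ?_⟩
            rw [hb, neg_smul, natCast_zsmul]
            have : j • l = (j - i) • l + i • l := by rw [← add_nsmul]; congr 1; omega
            rw [this]; abel
        · intro hi'
          exact absurd (Finset.mem_range.2 hi) hi'
      · exact coeff_eq_zero_of_natDegree_lt (by omega)
    rw [hR0, map_zero]
  have hsurj : Function.Surjective Φ := by
    intro G
    refine alg_induction N (p := fun G => ∃ y, Φ y = G) ⟨0, map_zero _⟩ ?_ ?_ G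
    · rintro _ _ ⟨y, rfl⟩ ⟨y', rfl⟩
      exact ⟨y + y', map_add _ _ _⟩
    · intro a x hx
      obtain ⟨j, hj, b, rfl⟩ := hdec a
      have hx' : z ^ (-(j : ℤ)) * x ∈ N.s (f b) := by
        have := N.mul' (hpow (-(j : ℤ))) hx
        rwa [neg_smul, natCast_zsmul, neg_add_cancel_left] at this
      refine ⟨AdjoinRoot.of F ((N.comap f).el (a := b) hx') * AdjoinRoot.root F ^ j, ?_⟩
      rw [map_mul, map_pow, hΦof, hΦroot, ofComap_el, el_pow _ hz, el_mul]
      refine el_eq _ _ _ (add_comm _ _) ?_
      rw [zpow_neg, zpow_natCast]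
      field_simp
  have : Algebra.FormallySmooth k (AdjoinRoot F) :=
    Algebra.FormallySmooth.of_equiv (AlgEquiv.ofBijective Φ ⟨hinj, hsurj⟩).symm
  exact formallySmooth_of_adjoinRoot F hFm (by rw [hFd]; exact hm)

end Fam

end Pool.Agent.MP_b525bf_ag
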